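import Pool.Agent.H.MP_b90300_al.A

set_option autoImplicit false

namespace Pool.Agent.H.MP_a8bb4d_al

open CategoryTheory Abelian Pool.Agent.PdOne Pool.Agent.PdFun Pool.Agent.PdSym Pool.Agent.Dep

section gen
variable {S : Type} [CommRing S] {P : Ideal S}

lemma dp_sum {ι : Type} (s : Finset ι) {A : ι → Type} [∀ c, AddCommGroup (A c)]
    [∀ c, Module S (A c)] {B : Type} [AddCommGroup B] [Module S B] (i : ∀ c, A c →ₗ[S] B)
    (p : ∀ c, B →ₗ[S] A c) (h : ∀ x, ∑ c ∈ s, i c (p c x) = x) {n : ℕ}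
    (hA : ∀ c ∈ s, DP P (A c) n) : DP P B n := by
  classical
  intro j hj
  refine subsingleton_of_forall_eq 0 fun x => ?_
  have e : 𝟙 (ModuleCat.of S B) = ∑ c ∈ s, ModuleCat.ofHom (p c) ≫ ModuleCat.ofHom (i c) := by
    refine ModuleCat.hom_ext (LinearMap.ext fun y => ?_)
    simp [h]
  rw [← Ext.comp_mk₀_id x, e]
  clear e h
  induction s using Finset.induction_on with
  | empty => simp
  | insert c s hc ih =>
    rw [Finset.sum_insert hc, Ext.mk₀_add, Ext.comp_add, ih fun c hc => hA c (by simp [hc]),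
      ← Ext.mk₀_comp_mk₀, ← Ext.comp_assoc_of_third_deg_zero,
      @Subsingleton.elim _ (hA c (by simp) j hj) (x.comp _ _) 0, Ext.zero_comp, add_zero]

section
variable {M C : Type} [AddCommGroup M] [Module S M] [AddCommGroup C] [Module S C]

lemma dp_step {y : S} (hy : y ∈ P) (hr : IsSMulRegular M y) (g : M →ₗ[S] C)
    (hg : Function.Surjective g) (he : ∀ x, g x = 0 ↔ ∃ z, y • z = x) {n : ℕ} :
    DP P M (n + 1) ↔ DP P C n := by
  have he' : Function.Exact (y • LinearMap.id : M →ₗ[S] M) g := he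
  refine ⟨fun h => dp3 _ g he' hr hg h (h.mono (by omega)), fun h => ?_⟩
  refine dp1' _ g he' hr hg (fun i _ x => ?_) h
  have h2 : ModuleCat.ofHom (y • LinearMap.id : M →ₗ[S] M) = y • 𝟙 (ModuleCat.of S M) := rfl
  have h3 : y • 𝟙 (ModuleCat.of S (S ⧸ P)) = 0 := by
    refine ModuleCat.hom_ext (LinearMap.ext fun z => ?_)
    obtain ⟨z, rfl⟩ := Submodule.mkQ_surjective P z
    change y • P.mkQ z = 0
    rw [← map_smul]
    exact (Submodule.Quotient.mk_eq_zero P).2 (P.mul_mem_right z hy)
  rw [h2, Ext.mk₀_smul, Ext.comp_smul, Ext.comp_mk₀_id, ← Ext.mk₀_id_comp x, ← Ext.smul_comp,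
    ← Ext.mk₀_smul, h3, Ext.mk₀_zero, Ext.zero_comp]

lemma dp_reg [IsNoetherianRing S] [Module.Finite S M] {n : ℕ} (h : DP P M (n + 1)) :
    ∃ y ∈ P, IsSMulRegular M y := by
  have h1 : Subsingleton (ModuleCat.of S (S ⧸ P) ⟶ ModuleCat.of S M) :=
    Ext.homEquiv₀.subsingleton_congr.1 (h 0 (by omega))
  have h2 : Subsingleton ((S ⧸ P) →ₗ[S] M) := (ModuleCat.homAddEquiv
    (M := ModuleCat.of S (S ⧸ P)) (N := ModuleCat.of S M)).symm.subsingleton
  simpa [Ideal.annihilator_quotient] using IsSMulRegular.subsingleton_linearMap_iff.1 h2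
end

/-- Restriction of scalars along an endomorphism. -/
def Tw (_ : S →+* S) (M : Type) : Type := M

variable (φ : S →+* S) (M : Type) [AddCommGroup M] [Module S M]

instance : AddCommGroup (Tw φ M) := inferInstanceAs (AddCommGroup M)
instance : Module S (Tw φ M) := Module.compHom M φ

variable {M}

/-- The identity map into the twisted module. -/
def tw : M ≃+ Tw φ M := AddEquiv.refl M

lemma tw_smul (r : S) (x : M) : r • tw φ x = tw φ (φ r • x) := rfl

lemma dp_tw [IsNoetherianRing S] (h1 : P.map φ ≤ P) (h2 : P ≤ (P.map φ).radical) (n : ℕ) :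
    ∀ (M : Type) [AddCommGroup M] [Module S M] [Module.Finite S M] [Module.Finite S (Tw φ M)],
      DP P (Tw φ M) n ↔ DP P M n := by
  induction n with
  | zero => exact fun _ _ _ _ _ => ⟨fun _ _ h => by omega, fun _ _ h => by omega⟩
  | succ n ih =>
    intro M _ _ _ _
    have key : (∃ y ∈ P, IsSMulRegular (Tw φ M) y) → (DP P (Tw φ M) (n + 1) ↔ DP P M (n + 1)) := by
      rintro ⟨y, hy, hr⟩
      let N : Submodule S M := LinearMap.range (φ y • LinearMap.id : M →ₗ[S] M)
      let g : Tw φ M →ₗ[S] Tw φ (M ⧸ N) :=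
        { toFun := N.mkQ, map_add' := N.mkQ.map_add, map_smul' := fun r x => N.mkQ.map_smul _ x }
      have hg : Function.Surjective g := N.mkQ_surjective
      have := Module.Finite.of_surjective g hg
      rw [dp_step hy hr g hg (fun x => Submodule.Quotient.mk_eq_zero N), ih,
        dp_step (h1 (Ideal.mem_map_of_mem φ hy)) (show IsSMulRegular M (φ y) from hr) N.mkQ
          N.mkQ_surjective
          (fun x => Submodule.Quotient.mk_eq_zero N)]
    refine ⟨fun h => (key (dp_reg h)).1 h, fun h => (key ?_).2 h⟩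
    obtain ⟨z, hz, hr⟩ := dp_reg h
    obtain ⟨j, hj⟩ := h2 hz
    have : Subsingleton ((S ⧸ P) →ₗ[S] Tw φ M) := by
      refine subsingleton_of_forall_eq 0 fun f => ?_
      have h3 : ∀ a ∈ P.map φ, a • ((tw φ).symm (f 1) : M) = 0 := fun a ha => by
        refine Submodule.span_induction (p := fun a _ => a • ((tw φ).symm (f 1) : M) = 0) ?_
          (zero_smul _ _) (fun a b _ _ h h' => by rw [add_smul, h, h', add_zero])
          (fun a b _ h => by rw [smul_eq_mul, mul_smul, h, smul_zero]) ha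
        rintro _ ⟨a, ha, rfl⟩
        change a • f 1 = 0
        rw [← map_smul, show a • (1 : S ⧸ P) = 0 from Ideal.Quotient.eq_zero_iff_mem.2
          (P.mul_mem_right _ ha), map_zero]
      have h4 : f 1 = 0 := (hr.pow j) ((h3 _ hj).trans (smul_zero _).symm)
      refine LinearMap.ext fun x => ?_
      obtain ⟨x, rfl⟩ := Ideal.Quotient.mk_surjective x
      rw [show Ideal.Quotient.mk P x = x • 1 from (mul_one _).symm, map_smul, h4]
      simp
    simpa [Ideal.annihilator_quotient] using IsSMulRegular.subsingleton_linearMap_iff.1 this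

end gen

open MvPolynomial

variable {σ : Type} {k : Type} [Field k] (N : ℕ)

open Classical in
/-- Extraction of a residue class of exponents. -/
noncomputable def ex (c : σ →₀ ℕ) : MvPolynomial σ k →ₗ[k] MvPolynomial σ k :=
  (basisMonomials σ k).constr k fun m =>
    if m.mapRange (· % N) (by simp) = c then monomial (m.mapRange (· / N) (by simp)) 1 else 0

open Classical in
lemma ex_mono (c m : σ →₀ ℕ) (a : k) : ex N c (monomial m a) =
    if m.mapRange (· % N) (by simp) = c then monomial (m.mapRange (· / N) (by simp)) a else 0 := by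
  have : monomial m a = a • basisMonomials σ k m := by simp [smul_monomial]
  rw [this, map_smul, ex, Module.Basis.constr_basis]
  split_ifs <;> simp [smul_monomial]

variable {N}

lemma ex_mul (hN : 0 < N) (c : σ →₀ ℕ) (g f : MvPolynomial σ k) :
    ex N c (expand N g * f) = g * ex N c f := by
  induction g using MvPolynomial.induction_on' with
  | add g g' h h' => rw [map_add, add_mul, map_add, h, h', add_mul]
  | monomial b x =>
    induction f using MvPolynomial.induction_on' with
    | add f f' h h' => rw [mul_add, map_add, h, h', map_add, mul_add]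
    | monomial m y =>
      have e1 : (N • b + m).mapRange (· % N) (by simp) = m.mapRange (· % N) (by simp) := by
        ext i; simp
      have e2 : (N • b + m).mapRange (· / N) (by simp) = b + m.mapRange (· / N) (by simp) := by
        ext i; simp [Nat.mul_add_div hN]
      rw [expand_monomial, monomial_mul, ex_mono, ex_mono, e1, e2]
      split_ifs <;> simp [monomial_mul]

lemma ex_in (hN : 0 < N) {c : σ →₀ ℕ} (hc : ∀ i, c i < N) (g : MvPolynomial σ k) :
    ex N c (expand N g * monomial c 1) = g := by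
  have e1 : c.mapRange (· % N) (by simp) = c := by
    ext i; simp [Nat.mod_eq_of_lt (hc i)]
  have e2 : c.mapRange (· / N) (by simp) = 0 := by
    ext i; simp [hc i]
  rw [ex_mul hN, ex_mono, if_pos e1, e2]
  simp

lemma ex_sum (hN : 0 < N) (s : Finset (σ →₀ ℕ)) (hs : ∀ c : σ →₀ ℕ, (∀ i, c i < N) → c ∈ s)
    (f : MvPolynomial σ k) : ∑ c ∈ s, expand N (ex N c f) * monomial c 1 = f := by
  classical
  induction f using MvPolynomial.induction_on' with
  | add f f' h h' => simp only [map_add, add_mul, Finset.sum_add_distrib, h, h']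
  | monomial m y =>
    rw [Finset.sum_eq_single_of_mem _ (hs (m.mapRange (· % N) (by simp)) fun i => by
      simpa using Nat.mod_lt _ hN) fun c _ hc => by rw [ex_mono, if_neg hc.symm]; simp,
      ex_mono, if_pos rfl, expand_monomial, monomial_mul, mul_one]
    congr 2
    ext i
    simp [Nat.div_add_mod]

/-- A residue class of a set of exponents. -/
def Cl (N : ℕ) (E : Set (σ →₀ ℕ)) (c : σ →₀ ℕ) : Set (σ →₀ ℕ) := {b | N • b + c ∈ E}

variable {E : Set (σ →₀ ℕ)}

lemma Cl_up (hE : Up E) (c : σ →₀ ℕ) : Up (Cl N E c) := fun b hb b' => by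
  have := hE _ hb (N • b')
  rwa [add_right_comm, ← smul_add] at this

/-- Inclusion of a residue class. -/
noncomputable def inC (N : ℕ) (E : Set (σ →₀ ℕ)) (c : σ →₀ ℕ) :
    (MvPolynomial σ k ⧸ MI k (Cl N E c)) →ₗ[MvPolynomial σ k]
      Tw (expand N : MvPolynomial σ k →ₐ[k] _).toRingHom (MvPolynomial σ k ⧸ MI k E) :=
  (MI k (Cl N E c)).liftQ (LinearMap.toSpanSingleton _ _ (tw _ ((MI k E).mkQ (monomial c 1)))) <| by
    refine Ideal.span_le.2 ?_
    rintro _ ⟨b, hb, rfl⟩
    change (MI k E).mkQ (expand N (monomial b 1) * monomial c 1) = 0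
    rw [expand_monomial, monomial_mul, mul_one]
    exact (Submodule.Quotient.mk_eq_zero _).2 (mono_mem_MI hb)

lemma inC_mk (c : σ →₀ ℕ) (g : MvPolynomial σ k) :
    inC N E c ((MI k _).mkQ g) = tw _ ((MI k E).mkQ (expand N g * monomial c 1)) := rfl

lemma ex_mem (hE : Up E) (c : σ →₀ ℕ) {f : MvPolynomial σ k} (hf : f ∈ MI k E) :
    ex N c f ∈ MI k (Cl N E c) := by
  rw [f.as_sum, map_sum]
  refine Ideal.sum_mem _ fun m hm => ?_
  rw [ex_mono]
  split_ifs with h
  · have e : N • m.mapRange (· / N) (by simp) + c = m := by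
      rw [← h]; ext i; simp [Nat.div_add_mod]
    rw [← mul_one (coeff m f), ← smul_eq_mul, ← smul_monomial]
    refine Submodule.smul_of_tower_mem _ _ (mono_mem_MI ?_)
    change _ ∈ E
    rw [e]
    exact (mem_MI hE).1 hf m hm
  · simp

/-- Projection to a residue class. -/
noncomputable def outC (hN : 0 < N) (hE : Up E) (c : σ →₀ ℕ) :
    Tw (expand N : MvPolynomial σ k →ₐ[k] _).toRingHom (MvPolynomial σ k ⧸ MI k E)
      →ₗ[MvPolynomial σ k] (MvPolynomial σ k ⧸ MI k (Cl N E c)) where
  toFun := QuotientAddGroup.map (MI k E).toAddSubgroup (MI k (Cl N E c)).toAddSubgroup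
    (ex N c).toAddMonoidHom fun _ hf => ex_mem hE c hf
  map_add' := map_add _
  map_smul' g x := by
    obtain ⟨x, rfl⟩ := (MI k E).mkQ_surjective x
    change (MI k _).mkQ (ex N c (expand N g * x)) = (MI k _).mkQ (g * ex N c x)
    rw [ex_mul hN]

lemma outC_mk (hN : 0 < N) (hE : Up E) (c : σ →₀ ℕ) (g : MvPolynomial σ k) :
    outC hN hE c (tw _ ((MI k E).mkQ g)) = (MI k _).mkQ (ex N c g) := rfl

theorem dm_cl [Fintype σ] (hN : 0 < N) (hE : Up E) (n : ℕ) :
    DM k E n ↔ ∀ c : σ →₀ ℕ, (∀ i, c i < N) → DM k (Cl N E c) n := by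
  classical
  let s : Finset (σ →₀ ℕ) := (Finset.Iic (Finsupp.equivFunOnFinite.symm fun _ => N)).filter
    fun c => ∀ i, c i < N
  have hs : ∀ c, c ∈ s ↔ ∀ i, c i < N := fun c => by
    simp only [s, Finset.mem_filter, Finset.mem_Iic, and_iff_right_iff_imp]
    exact fun h i => (h i).le
  have e : ∀ x, ∑ c ∈ s, inC (k := k) N E c (outC hN hE c x) = x := fun x => by
    obtain ⟨x, rfl⟩ := (MI k E).mkQ_surjective x
    change ∑ c ∈ s, tw _ ((MI k E).mkQ (expand N (ex N c x) * monomial c 1)) = _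
    rw [← map_sum, ← map_sum, ex_sum hN s fun c => (hs c).2]
    rfl
  have : Module.Finite (MvPolynomial σ k) (Tw (expand N : MvPolynomial σ k →ₐ[k] _).toRingHom
      (MvPolynomial σ k ⧸ MI k E)) := by
    refine Module.Finite.of_surjective (∑ c : s, inC N E c ∘ₗ LinearMap.proj
      (φ := fun c : s => MvPolynomial σ k ⧸ MI k (Cl N E c)) c) fun x => ?_
    refine ⟨fun c => outC hN hE c x, ?_⟩
    refine Eq.trans ?_ (e x)
    rw [← Finset.sum_coe_sort s, LinearMap.sum_apply]
    rfl
  rw [DM, ← dp_tw (expand N : MvPolynomial σ k →ₐ[k] _).toRingHom]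
  · refine ⟨fun h c hc => dp_sum {()} (fun _ => outC hN hE c) (fun _ => inC N E c) (fun x => ?_)
      fun _ _ => h, fun h => dp_sum s _ _ e fun c hc => h c ((hs c).1 hc)⟩
    obtain ⟨x, rfl⟩ := (MI k _).mkQ_surjective x
    rw [Finset.sum_singleton, inC_mk, outC_mk, ex_in hN hc]
  · rw [Ideal.map_span, Ideal.span_le]
    rintro _ ⟨_, ⟨i, rfl⟩, rfl⟩
    change expand N (X i) ∈ _
    rw [expand_X]
    exact Ideal.pow_mem_of_mem _ (Ideal.subset_span (Set.mem_range_self i)) _ hN
  · rw [Ideal.span_le]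
    rintro _ ⟨i, rfl⟩
    exact ⟨N, expand_X (R := k) N i ▸ Ideal.mem_map_of_mem _ (Ideal.subset_span ⟨i, rfl⟩)⟩

end Pool.Agent.H.MP_a8bb4d_al
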