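import Pool.Agent.H.MP_a8bb4d_al.A

set_option autoImplicit false

namespace Pool.Agent.H.MP_a8bb4d_al

open Pool.Agent.PdOne Pool.Agent.PdFun Pool.Agent.PdSym Pool.Agent.Dep Module Filter Topology

variable {V : Type} [AddCommGroup V] [Module ℚ V]

lemma gen1 (H : Finset (Dual ℚ V)) (q w : V) :
    ∃ ε : ℚ, 0 < ε ∧ ∀ h ∈ H, 0 < h q → 0 < h (q + ε • w) := by
  have : ∀ᶠ ε : ℚ in 𝓝[>] 0, ∀ h ∈ H, 0 < h q → 0 < h (q + ε • w) := by
    rw [eventually_all_finset]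
    intro h _
    by_cases h0 : 0 < h q
    · have h1 : Tendsto (fun ε : ℚ => h q + ε * h w) (𝓝 0) (𝓝 (h q + 0 * h w)) :=
        (by fun_prop : Continuous fun ε : ℚ => h q + ε * h w).tendsto 0
      filter_upwards [nhdsWithin_le_nhds (h1.eventually (lt_mem_nhds (by simpa using h0)))]
        with ε h2 _
      simpa using h2
    · exact .of_forall fun _ h => absurd h h0
  exact (eventually_mem_nhdsWithin.and this).exists

lemma gen (W : Submodule ℚ V) (Φ : Finset (Dual ℚ V)) : ∀ (H : Finset (Dual ℚ V)) (q : V),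
    q ∈ W → ∃ q' ∈ W, (∀ h ∈ H, 0 < h q → 0 < h q') ∧ ∀ φ ∈ Φ, φ q' = 0 → ∀ w ∈ W, φ w = 0 := by
  classical
  induction Φ using Finset.induction_on with
  | empty => exact fun H q hq => ⟨q, hq, fun _ _ h => h, by simp⟩
  | insert φ Φ _ ih =>
    intro H q hq
    obtain ⟨q1, h1, h2, h3⟩ : ∃ q1 ∈ W, (∀ h ∈ H, 0 < h q → 0 < h q1) ∧
        (φ q1 = 0 → ∀ w ∈ W, φ w = 0) := by
      by_contra h
      push Not at h
      obtain ⟨h1, w, h2, h3⟩ := h q hq fun _ _ h => h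
      obtain ⟨ε, h4, h5⟩ := gen1 H q w
      have := (h _ (W.add_mem hq (W.smul_mem ε h2)) h5).1
      simp [h1, h3, h4.ne'] at this
    obtain ⟨q', h4, h5, h6⟩ := ih (insert φ (insert (-φ) H)) q1 h1
    refine ⟨q', h4, fun h hh h0 => h5 h (by simp [hh]) (h2 h hh h0), ?_⟩
    rw [Finset.forall_mem_insert]
    refine ⟨fun h7 => h3 (by_contra fun h8 => ?_), h6⟩
    rcases lt_or_gt_of_ne h8 with h9 | h9
    · simpa [h7] using h5 (-φ) (by simp) (by simpa using h9)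
    · simpa [h7] using h5 φ (by simp) h9

variable (H : Finset (Dual ℚ V))

/-- The cone cut out by `H`. -/
def Cn (q : V) : Prop := ∀ h ∈ H, 0 ≤ h q

/-- The span of the face through `q`. -/
def L (q : V) : Submodule ℚ V := ⨅ h ∈ H, ⨅ _ : h q = 0, LinearMap.ker h

variable {H}

lemma mem_L {q v : V} : v ∈ L H q ↔ ∀ h ∈ H, h q = 0 → h v = 0 := by
  simp [L, Submodule.mem_iInf]

lemma step {q p : V} (hq : Cn H q) (hp : p ∈ L H q) (hv : ∃ h ∈ H, h p < 0) :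
    ∃ g ∈ H, ∃ p' ∈ L H q, g p < 0 ∧ g p' = 0 ∧ (∀ h ∈ H, h p < 0 → h p' ≤ 0) ∧
      (∀ h ∈ H, h p' < 0 → h p < 0) ∧ (∀ h ∈ H, h p' = 0 → ∀ w ∈ L H q, g w = 0 → h w = 0) ∧
      ∀ h ∈ H, h p < 0 → h p' = 0 → ∀ w ∈ L H q, h w = 0 → g w = 0 := by
  classical
  obtain ⟨q', h1, h2, h3⟩ := gen (L H q) ((H ×ˢ H).image fun x => x.1 p • x.2 - x.2 p • x.1) H q
    (mem_L.2 fun _ _ h => h)
  have h4 : ∀ h ∈ H, 0 < h q' ∨ ∀ w ∈ L H q, h w = 0 := fun h hh =>
    (hq h hh).lt_or_eq.imp (h2 h hh) fun e w hw => mem_L.1 hw h hh e.symm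
  have h5 : ∀ h ∈ H, h p < 0 → 0 < h q' := fun h hh h0 =>
    (h4 h hh).resolve_right fun e => h0.ne (e p hp)
  obtain ⟨g, hg, h6⟩ := (H.filter fun h => h p < 0).exists_min_image (fun h => -h p / h q')
    (by simpa [Finset.Nonempty] using hv)
  simp only [Finset.mem_filter, and_imp] at hg h6
  have h7 := h5 g hg.1 hg.2
  have h8 : 0 < -g p / g q' := div_pos (neg_pos.2 hg.2) h7
  have e : ∀ h : Dual ℚ V, h (p + (-g p / g q') • q') = h p + -g p / g q' * h q' := by simp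
  have h9 : ∀ h ∈ H, h p < 0 → h p + -g p / g q' * h q' = 0 → ∀ w ∈ L H q,
      h p * g w = g p * h w := fun h hh h0 h9 w hw => by
    have := h3 _ (Finset.mem_image_of_mem _ (Finset.mk_mem_product hh hg.1)) (by
      simp only [LinearMap.sub_apply, LinearMap.smul_apply, smul_eq_mul]
      field_simp at h9
      linarith) w hw
    simpa [sub_eq_zero] using this
  refine ⟨g, hg.1, _, (L H q).add_mem hp ((L H q).smul_mem (-g p / g q') h1), hg.2, ?_,
    fun h hh h0 => ?_, fun h hh h0 => ?_, fun h hh h0 w hw h10 => ?_, fun h hh h0 h10 w hw h11 => ?_⟩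
  · rw [e]; field_simp; ring
  · have := (le_div_iff₀ (h5 h hh h0)).1 (h6 h hh h0)
    rw [e]; linarith
  · rw [e] at h0
    rcases h4 h hh with h10 | h10
    · nlinarith
    · simp [h10 p hp, h10 q' h1] at h0
  · rw [e] at h0
    by_cases h11 : h p < 0
    · simpa [h10, hg.2.ne] using h9 h hh h11 h0 w hw
    · exact (h4 h hh).resolve_left (fun h12 => by nlinarith) w hw
  · rw [e] at h10
    simpa [h11, h0.ne] using h9 h hh h0 h10 w hw

lemma L_eq {q y : V} {g : Dual ℚ V} (hg : g ∈ H) (h1 : y ∈ L H q) (h2 : g y = 0)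
    (h3 : ∀ h ∈ H, h y = 0 → ∀ w ∈ L H q, g w = 0 → h w = 0) :
    L H y = L H q ⊓ LinearMap.ker g := by
  ext v
  rw [Submodule.mem_inf, LinearMap.mem_ker]
  exact ⟨fun h => ⟨mem_L.2 fun h' hh e => mem_L.1 h h' hh (mem_L.1 h1 h' hh e), mem_L.1 h g hg h2⟩,
    fun h => mem_L.2 fun h' hh e => h3 h' hh e v h.1 h.2⟩

lemma rk_ker [FiniteDimensional ℚ V] {W : Submodule ℚ V} {g : Dual ℚ V} {p : V} (h1 : p ∈ W)
    (h2 : g p ≠ 0) : finrank ℚ W = finrank ℚ (W ⊓ LinearMap.ker g : Submodule ℚ V) + 1 := by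
  rw [← Submodule.finrank_sup_span_singleton (p := W ⊓ LinearMap.ker g) (v := p)
    fun h => h2 h.2]
  suffices h : W = W ⊓ LinearMap.ker g ⊔ Submodule.span ℚ {p} by rw [← h]
  refine le_antisymm (fun w hw => ?_) (sup_le inf_le_left (by simpa))
  rw [← sub_add_cancel w ((g w / g p) • p)]
  exact Submodule.add_mem_sup ⟨W.sub_mem hw (W.smul_mem _ h1), by simp [h2]⟩
    (Submodule.smul_mem _ _ (Submodule.mem_span_singleton_self p))

open Classical in
lemma viol_lt {p p' : V} {g : Dual ℚ V} (hg : g ∈ H) (h1 : g p < 0) (h2 : g p' = 0)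
    (h3 : ∀ h ∈ H, h p' < 0 → h p < 0) :
    (H.filter fun h => h p' < 0).card < (H.filter fun h => h p < 0).card := by
  refine Finset.card_lt_card ⟨fun h hh => ?_, fun h => ?_⟩
  · rw [Finset.mem_filter] at *
    exact ⟨hh.1, h3 h hh.1 hh.2⟩
  · simpa [h2] using h (Finset.mem_filter.2 ⟨hg, h1⟩)

lemma last {q : V} (hq : Cn H q) : ∀ p ∈ L H q, (∃ h ∈ H, h p < 0) →
    ∃ g ∈ H, g p < 0 ∧ ∃ y, Cn H y ∧ L H y = L H q ⊓ LinearMap.ker g := by
  classical
  intro p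
  induction hn : (H.filter fun h => h p < 0).card using Nat.strong_induction_on generalizing p with
  | _ n ih =>
  intro hp hv
  obtain ⟨g, hg, p', h1, h2, h3, -, h5, h6, -⟩ := step hq hp hv
  by_cases h : ∃ h ∈ H, h p' < 0
  · obtain ⟨g', h7, h8, h9⟩ := ih _ (hn ▸ viol_lt hg h2 h3 h5) p' rfl h1 h
    exact ⟨g', h7, h5 g' h7 h8, h9⟩
  · push Not at h
    exact ⟨g, hg, h2, p', h, L_eq hg h1 h3 h6⟩

variable {σ : Type} [Fintype σ] (e : σ → V)

open Classical in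
/-- The coordinate directions inside a subspace. -/
noncomputable def Z (W : Submodule ℚ V) : Finset σ := Finset.univ.filter fun i => e i ∈ W

lemma mem_Z {W : Submodule ℚ V} {i : σ} : i ∈ Z e W ↔ e i ∈ W := by simp [Z]

variable (H) in
/-- The squarefree degree ideal at `p`. -/
def Sq (W : Submodule ℚ V) (p : V) : Set (σ →₀ ℕ) :=
  {b | ∀ h ∈ H, h p < 0 → ∃ i, b i ≠ 0 ∧ (e i ∈ W → h (e i) ≠ 0)}

omit [Fintype σ] in
lemma Sq_up (W : Submodule ℚ V) (p : V) : Up (Sq H e W p) := fun b hb b' h hh h0 =>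
  (hb h hh h0).imp fun i hi => ⟨by simp [hi.1], hi.2⟩

variable (H) in
/-- The dimension bound for faces. -/
def Hy (ν : ℕ) : Prop := ∀ x, Cn H x → finrank ℚ (L H x) ≤ ν + (Z e (L H x)).card

variable {e} {k : Type} [Field k] {ν : ℕ} [DecidableEq σ]

lemma Sq_inter {W : Submodule ℚ V} {p p' : V} {g : Dual ℚ V} (hg : g ∈ H) (h1 : g p < 0)
    (h2 : ∀ h ∈ H, h p < 0 → h p' ≤ 0) (h3 : ∀ h ∈ H, h p' < 0 → h p < 0)
    (h4 : ∀ h ∈ H, h p < 0 → h p' = 0 → ∀ w ∈ W, h w = 0 → g w = 0) :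
    Sq H e W p = Sq H e W p' ∩ VG (Z e (W ⊓ LinearMap.ker g))ᶜ := by
  ext b
  refine ⟨fun h => ⟨fun h' hh h0 => h h' hh (h3 h' hh h0), ?_⟩, fun h h' hh h0 => ?_⟩
  · obtain ⟨i, h5, h6⟩ := h g hg h1
    exact ⟨i, by simpa [mem_Z] using h6, h5⟩
  · rcases (h2 h' hh h0).lt_or_eq with h5 | h5
    · exact h.1 h' hh h5
    · obtain ⟨i, h6, h7⟩ := h.2
      exact ⟨i, h7, fun h8 h9 => (by simpa [mem_Z] using h6 : e i ∈ W → ¬ g (e i) = 0) h8
        (h4 h' hh h0 h5 _ h8 h9)⟩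

lemma Sq_union {W W' : Submodule ℚ V} (h : W' ≤ W) (p : V) :
    Sq H e W' p = Sq H e W p ∪ VG (Z e W')ᶜ := by
  ext b
  refine ⟨fun h1 => or_iff_not_imp_right.2 fun h2 h' hh h0 => ?_, ?_⟩
  · obtain ⟨i, h3, h4⟩ := h1 h' hh h0
    exact ⟨i, h3, fun _ => h4 (by_contra fun h5 => h2 ⟨i, by simpa [mem_Z] using h5, h3⟩)⟩
  · rintro (h1 | ⟨i, h1, h2⟩) h' hh h0
    · exact (h1 h' hh h0).imp fun i hi => ⟨hi.1, fun h2 => hi.2 (h h2)⟩
    · exact ⟨i, h2, fun h3 => absurd h3 (by simpa [mem_Z] using h1)⟩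

lemma dm_VG (Y : Finset σ) : DM k (VG Yᶜ) Y.card := dm_ind Y _ (VG_up _) fun y hy m => by
  rintro ⟨g, h1, h2⟩
  have : g ≠ y := fun e => by simp [e, hy] at h1
  exact ⟨g, h1, by simpa [Finsupp.single_eq_of_ne this] using h2⟩

omit [Fintype σ] [DecidableEq σ] in
lemma dm_univ (n : ℕ) : DM k (Set.univ : Set (σ →₀ ℕ)) n := by
  have : Subsingleton (MvPolynomial σ k ⧸ MI k (Set.univ : Set (σ →₀ ℕ))) :=
    Ideal.Quotient.subsingleton_iff.2 ((Ideal.eq_top_iff_one _).2 (mono_mem_MI (m := 0) trivial))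
  exact dp_sum (∅ : Finset Unit) (fun _ => LinearMap.id) (fun _ => LinearMap.id)
    (fun _ => Subsingleton.elim _ _) (by simp)

variable [FiniteDimensional ℚ V]

theorem claimA (he : ∀ h ∈ H, ∀ i, 0 ≤ h (e i)) (hy : Hy H e ν) (ε : ℕ) : ∀ q, Cn H q →
    ε + ν + 1 ≤ finrank ℚ (L H q) → ∀ p ∈ L H q, DM k (Sq H e (L H q) p) ε := by
  classical
  induction ε with
  | zero => exact fun _ _ _ _ _ i hi => by omega
  | succ ε ih =>
  intro q hq hr p
  induction hn : (H.filter fun h => h p < 0).card using Nat.strong_induction_on generalizing p with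
  | _ n ih' =>
  intro hp
  by_cases hv : ∃ h ∈ H, h p < 0
  swap
  · exact (dm_univ _).congr fun m => ⟨fun _ h hh h0 => absurd ⟨h, hh, h0⟩ hv, fun _ => trivial⟩
  obtain ⟨g, hg, p', h1, h2, h3, h4, h5, h6, h7⟩ := step hq hp hv
  have h8 := ih' _ (hn ▸ viol_lt hg h2 h3 h5) p' rfl h1
  rw [Sq_inter hg h2 h4 h5 h7]
  by_cases h9 : ∃ h ∈ H, h p' < 0 ∧ ∀ i ∈ Z e (L H q ⊓ LinearMap.ker g), h (e i) = 0
  · obtain ⟨h, hh, h9, h10⟩ := h9
    refine h8.congr fun m => ⟨fun h11 => ⟨h11, ?_⟩, fun h => h.1⟩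
    obtain ⟨i, h12, h13⟩ := h11 h hh h9
    exact ⟨i, Finset.mem_compl.2 fun h14 => h13 ((mem_Z e).1 h14).1 (h10 i h14), h12⟩
  push Not at h9
  set u := ∑ i ∈ Z e (L H q ⊓ LinearMap.ker g), e i with hu
  have u1 : u ∈ L H q ⊓ LinearMap.ker g := Submodule.sum_mem _ fun i hi => (mem_Z e).1 hi
  have u2 : ∀ h ∈ H, 0 ≤ h u := fun h hh => by
    rw [hu, map_sum]; exact Finset.sum_nonneg fun i _ => he h hh i
  obtain ⟨δ, d1, d2⟩ := gen1 H u p'
  have u3 : ∀ h ∈ H, h p' < 0 → 0 < h (u + δ • p') := fun h hh h0 => d2 h hh (by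
    obtain ⟨i, h10, h11⟩ := h9 h hh h0
    rw [hu, map_sum]
    exact Finset.sum_pos' (fun i _ => he h hh i) ⟨i, h10, (he h hh i).lt_of_ne' h11⟩)
  have u4 : ∀ h ∈ H, 0 ≤ h p' → 0 ≤ h u ∧ 0 ≤ δ * h p' := fun h hh h0 =>
    ⟨u2 h hh, mul_nonneg d1.le h0⟩
  have hc : Cn H (u + δ • p') := fun h hh => by
    rcases lt_or_ge (h p') 0 with h0 | h0
    · exact (u3 h hh h0).le
    · have := u4 h hh h0
      simp only [map_add, map_smul, smul_eq_mul]; linarith
  have hL : L H (u + δ • p') = L H q ⊓ LinearMap.ker g :=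
    L_eq hg (add_mem u1.1 (Submodule.smul_mem _ _ h1)) (by simpa [h3] using u1.2) fun h hh h0 =>
      h6 h hh (by
        rcases lt_or_ge (h p') 0 with h10 | h10
        · exact absurd h0 (u3 h hh h10).ne'
        · have := u4 h hh h10
          simp only [map_add, map_smul, smul_eq_mul] at h0
          nlinarith)
  have r1 := rk_ker hp h2.ne
  have r2 := hy _ hc
  have r3 := ih _ hc (by rw [hL]; omega) p' (hL ▸ ⟨h1, h3⟩)
  rw [hL] at r2 r3
  rw [Sq_union inf_le_left] at r3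
  exact dm_inter (Sq_up _ _ _) (VG_up _) h8 ((dm_VG _).mono (by omega)) r3

theorem claimB (he : ∀ h ∈ H, ∀ i, 0 ≤ h (e i)) (hy : Hy H e ν) (h0 : ν ≤ finrank ℚ (L H 0))
    (hz : ∀ i, e i ∉ L H 0) (ε : ℕ) : ∀ q, Cn H q → finrank ℚ (L H q) = ε + ν + 1 →
    ∀ p ∈ L H q, (∀ h ∈ H, h p < 0 ∨ ∀ w ∈ L H q, h w = 0) →
      ¬ DM k (Sq H e (L H q) p) (ε + 1) := by
  have z1 : ∀ q, L H 0 ≤ L H q := fun q v hv => mem_L.2 fun h hh _ => mem_L.1 hv h hh (by simp)
  have z2 : finrank ℚ (L H 0) ≤ ν := by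
    have := hy 0 fun h _ => by simp
    rwa [show Z e (L H 0) = ∅ from Finset.eq_empty_of_forall_notMem fun i hi =>
      hz i ((mem_Z e).1 hi)] at this
  have key : ∀ ε q, Cn H q → finrank ℚ (L H q) = ε + ν + 1 → ∀ p ∈ L H q,
      (∀ h ∈ H, h p < 0 ∨ ∀ w ∈ L H q, h w = 0) → ∃ y, Cn H y ∧ L H y ≤ L H q ∧
        finrank ℚ (L H y) = ε + ν ∧ ∃ p' ∈ L H y, (∀ h ∈ H, h p' < 0 ∨ ∀ w ∈ L H y, h w = 0) ∧
          Sq H e (L H q) p = Sq H e (L H q) p' ∩ VG (Z e (L H y))ᶜ := fun ε q hq hr p hp ha => by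
    obtain ⟨g, hg, p', h1, h2, h3, h4, h5, h6, h7⟩ := step hq hp (by_contra fun h => by
      have := Submodule.finrank_mono (show L H q ≤ L H 0 from fun v hv => mem_L.2 fun h' hh _ =>
        (ha h' hh).resolve_left (fun h1 => h ⟨h', hh, h1⟩) v hv)
      omega)
    have h8 : ∀ h ∈ H, h p' ≤ 0 := fun h hh => (ha h hh).elim (h4 h hh) fun h9 => (h9 _ h1).le
    have hL : L H (-p') = L H q ⊓ LinearMap.ker g :=
      L_eq hg (neg_mem h1) (by simp [h3]) fun h hh h0 => h6 h hh (by simpa using h0)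
    have r1 := rk_ker hp h2.ne
    refine ⟨-p', fun h hh => by simpa using h8 h hh, hL ▸ inf_le_left, by rw [hL]; omega, p',
      hL ▸ ⟨h1, h3⟩, fun h hh => (h8 h hh).lt_or_eq.imp_right fun h9 w hw => ?_,
      hL ▸ Sq_inter hg h2 h4 h5 h7⟩
    rw [hL] at hw
    exact h6 h hh h9 w hw.1 hw.2
  induction ε with
  | zero =>
    intro q hq hr p hp ha
    obtain ⟨y, -, h2, h3, p', h4, -, h6⟩ := key 0 q hq hr p hp ha
    have h7 : L H 0 = L H y := Submodule.eq_of_le_of_finrank_le (z1 y) (by omega)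
    rw [← h7] at h4 h6
    rw [h6]
    refine not_dm ∅ (fun m hm m' => ⟨Sq_up _ _ _ m hm.1 m', VG_up _ m hm.2 m'⟩) (by simp) 0
      (fun h => by simpa [VG] using h.2) (by simp) fun s _ => ⟨1, fun h hh h8 => ?_, s, ?_, by simp⟩
    · exact absurd (mem_L.1 h4 h hh (by simp)) h8.ne
    · simpa [mem_Z] using hz s
  | succ ε ih =>
    intro q hq hr p hp ha h
    obtain ⟨y, h1, h2, h3, p', h4, h5, h6⟩ := key _ q hq hr p hp ha
    refine ih y h1 (by omega) p' h4 h5 ?_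
    rw [Sq_union h2]
    have := hy y h1
    exact dm_union (Sq_up _ _ _) (VG_up _) (claimA he hy _ q hq hr.ge p' (h2 h4))
      ((dm_VG _).mono (by omega)) (h6 ▸ h)

omit [DecidableEq σ] in
lemma exists_nu (he : ∀ h ∈ H, ∀ i, 0 ≤ h (e i)) (hz : ∀ i, e i ∉ L H 0) :
    ∃ x, Cn H x ∧ (∀ i, e i ∉ L H x) ∧ Hy H e (finrank ℚ (L H x)) := by
  classical
  obtain ⟨_, ⟨x, h1, h2, rfl⟩, h3⟩ := Set.exists_max_image
    {n | ∃ x, Cn H x ∧ (∀ i, e i ∉ L H x) ∧ finrank ℚ (L H x) = n} id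
    ((Set.finite_le_nat (finrank ℚ V)).subset (by
      rintro _ ⟨x, -, -, rfl⟩; exact Submodule.finrank_le _))
    ⟨_, 0, fun h _ => by simp, hz, rfl⟩
  refine ⟨x, h1, h2, fun y => ?_⟩
  induction hn : finrank ℚ (L H y) using Nat.strong_induction_on generalizing y with
  | _ n ih =>
  intro hy
  by_cases h : ∃ i, e i ∈ L H y
  · obtain ⟨i, hi⟩ := h
    obtain ⟨g, hg, h4, y', h5, h6⟩ := last hy (-e i) (neg_mem hi) (by_contra fun h => hz i
      (mem_L.2 fun h' hh _ => (he h' hh i).antisymm' (not_lt.1 fun h4 => h ⟨h', hh, by simpa⟩)))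
    have r1 := rk_ker (neg_mem hi) h4.ne
    have r2 := ih _ (by rw [h6]; omega) y' rfl h5
    have r3 : (Z e (L H y')).card < (Z e (L H y)).card := by
      refine Finset.card_lt_card ⟨fun j hj => ?_, fun h => ?_⟩
      · rw [mem_Z, h6] at hj
        exact (mem_Z e).2 hj.1
      · have := (mem_Z e).1 (h ((mem_Z e).2 hi))
        rw [h6] at this
        simp [show g (e i) = 0 from this.2] at h4
    rw [h6] at r2 r3
    omega
  · exact hn ▸ (h3 _ ⟨y, hy, not_exists.1 h, rfl⟩).trans (Nat.le_add_right _ _)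

omit [FiniteDimensional ℚ V] [DecidableEq σ] in
lemma Hy_loc (hy : Hy H e ν) {x : V} (hx : Cn H x) : Hy (H.filter fun h => h x = 0) e ν := by
  intro y h1
  obtain ⟨δ, h2, h3⟩ := gen1 H x y
  have h4 : L (H.filter fun h => h x = 0) y = L H (x + δ • y) := by
    ext v
    simp only [mem_L, Finset.mem_filter, and_imp]
    refine forall₂_congr fun h hh => ?_
    rcases (hx h hh).lt_or_eq with h4 | h4
    · simp only [h4.ne', (h3 h hh h4).ne', false_imp_iff]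
    · simp [← h4, h2.ne']
  rw [h4]
  refine hy _ fun h hh => ?_
  rcases (hx h hh).lt_or_eq with h5 | h5
  · exact (h3 h hh h5).le
  · simpa [← h5, h2] using h1 h (Finset.mem_filter.2 ⟨hh, h5.symm⟩)

variable (H e) in
/-- Lattice points of the translated cone. -/
def Ex (u : V) : Set (σ →₀ ℕ) := {a | Cn H (u + ∑ i, (a i : ℚ) • e i)}

omit [FiniteDimensional ℚ V] [DecidableEq σ] in
lemma Ex_up (he : ∀ h ∈ H, ∀ i, 0 ≤ h (e i)) (u : V) : Up (Ex H e u) := fun a ha b h hh => by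
  have := ha h hh
  have : 0 ≤ ∑ i, (b i : ℚ) * h (e i) := Finset.sum_nonneg fun i _ => mul_nonneg (by simp) (he h hh i)
  simp only [map_add, map_sum, map_smul, smul_eq_mul, Finsupp.add_apply, Nat.cast_add, add_mul,
    Finset.sum_add_distrib] at *
  linarith

omit [FiniteDimensional ℚ V] [DecidableEq σ] in
theorem dm_Ex (he : ∀ h ∈ H, ∀ i, 0 ≤ h (e i)) (u : V) (n : ℕ) :
    DM k (Ex H e u) n ↔ ∀ c : σ →₀ ℕ, DM k (Sq H e ⊤ (u + ∑ i, (c i : ℚ) • e i)) n := by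
  have h1 : ∀ᶠ N : ℕ in atTop, ∀ h ∈ H, ∀ i, h (e i) ≠ 0 → 0 ≤ h u + N * h (e i) := by
    rw [eventually_all_finset]
    intro h hh
    rw [eventually_all]
    intro i
    obtain ⟨M, hM⟩ := exists_nat_ge (-h u / h (e i))
    filter_upwards [eventually_ge_atTop M] with N hN h0
    have := (div_le_iff₀ ((he h hh i).lt_of_ne' h0)).1 (hM.trans (Nat.cast_le.2 hN))
    linarith
  have h2 : ∀ᶠ N : ℕ in atTop, ∀ c : σ →₀ ℕ,
      Cl N (Ex H e u) c = Sq H e ⊤ (u + ∑ i, (c i : ℚ) • e i) := by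
    filter_upwards [h1] with N hN c
    ext b
    refine forall₂_congr fun h hh => ?_
    have h3 : ∀ (c : σ →₀ ℕ) i, 0 ≤ (c i : ℚ) * h (e i) := fun c i =>
      mul_nonneg (by simp) (he h hh i)
    have h4 := Finset.sum_nonneg fun i (_ : i ∈ Finset.univ) => h3 c i
    have h5 := Finset.sum_nonneg fun i (_ : i ∈ Finset.univ) => h3 b i
    simp only [map_add, map_sum, map_smul, smul_eq_mul, Finsupp.add_apply, Nat.cast_add, add_mul,
      Finset.sum_add_distrib, Finsupp.smul_apply, Nat.cast_mul, mul_assoc, ← Finset.mul_sum,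
      Submodule.mem_top, true_imp_iff]
    refine ⟨fun h6 h7 => by_contra fun h8 => ?_, fun h6 => ?_⟩
    · rw [Finset.sum_eq_zero (f := fun i => (b i : ℚ) * h (e i)) fun i _ => by
        by_contra h9
        exact h8 ⟨i, by simpa [not_or] using h9⟩] at h6
      linarith
    · have h9 := mul_nonneg (Nat.cast_nonneg (α := ℚ) N) h5
      by_contra h7
      obtain ⟨i, h8, h10⟩ := h6 (by linarith)
      have h11 := hN h hh i h10
      have h12 := Finset.single_le_sum (fun i _ => h3 b i) (Finset.mem_univ i)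
      have h13 : h (e i) ≤ b i * h (e i) :=
        le_mul_of_one_le_left (he h hh i) (by exact_mod_cast Nat.one_le_iff_ne_zero.2 h8)
      have := mul_le_mul_of_nonneg_left (h13.trans h12) (Nat.cast_nonneg (α := ℚ) N)
      linarith
  constructor
  · intro h c
    obtain ⟨N, h3, h4, h5⟩ := (h2.and ((eventually_gt_atTop 0).and
      (eventually_all.2 fun i => eventually_gt_atTop (c i)))).exists
    exact h3 c ▸ (dm_cl h4 (Ex_up he u) n).1 h c h5
  · intro h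
    obtain ⟨N, h3, h4⟩ := (h2.and (eventually_gt_atTop 0)).exists
    exact (dm_cl h4 (Ex_up he u) n).2 fun c _ => h3 c ▸ h c

end Pool.Agent.H.MP_a8bb4d_al
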