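import Pool.Agent.H.MP_a8bb4d_al.B

set_option autoImplicit false

namespace Pool.Agent.H.MP_a8bb4d_al

open Pool.Agent.PdOne Pool.Agent.PdFun Pool.Agent.PdSym Pool.Agent.Dep Module Finset

section
variable {V : Type} [AddCommGroup V] [Module ℚ V] {ι : Type}

lemma farkas (s : Finset ι) : ∀ (g : ι → V) (y : V),
    (∃ l : ι → ℚ, (∀ i, 0 ≤ l i) ∧ y = ∑ i ∈ s, l i • g i) ∨
      ∃ f : Dual ℚ V, (∀ i ∈ s, 0 ≤ f (g i)) ∧ f y < 0 := by
  classical
  induction s using Finset.induction_on with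
  | empty =>
    intro g y
    by_cases h : y = 0
    · exact .inl ⟨0, fun _ => le_rfl, by simp [h]⟩
    · obtain ⟨f, hf⟩ := not_forall.1 ((forall_dual_apply_eq_zero_iff ℚ y).not.2 h)
      rcases lt_or_gt_of_ne hf with h1 | h1
      · exact .inr ⟨f, by simp, h1⟩
      · exact .inr ⟨-f, by simp, by simpa⟩
  | insert j s hj ih =>
    intro g y
    have e : ∀ (l : ι → ℚ) c, ∑ i ∈ insert j s, Function.update l j c i • g i =
        c • g j + ∑ i ∈ s, l i • g i := fun l c => by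
      rw [sum_insert hj, Function.update_self]
      congr 1
      exact sum_congr rfl fun i hi => by rw [Function.update_of_ne (ne_of_mem_of_not_mem hi hj)]
    have e' : ∀ (l : ι → ℚ) c, (∀ i, 0 ≤ l i) → 0 ≤ c → ∀ i, 0 ≤ Function.update l j c i :=
      fun l c h1 h2 i => by
        rw [Function.update_apply]
        split_ifs
        exacts [h2, h1 i]
    rcases ih g y with ⟨l, h1, h2⟩ | ⟨f, h1, h2⟩
    · exact .inl ⟨_, e' l 0 h1 le_rfl, by simp [e, h2]⟩
    by_cases h3 : 0 ≤ f (g j)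
    · exact .inr ⟨f, by simpa [h3] using h1, h2⟩
    rw [not_le] at h3
    let π : V →ₗ[ℚ] V := LinearMap.id - (f (g j))⁻¹ • f.smulRight (g j)
    have hπ : ∀ v, π v = v - (f v / f (g j)) • g j := fun v => by
      simp [π, smul_smul, div_eq_inv_mul]
    rcases ih (fun i => π (g i)) (π y) with ⟨l, h4, h5⟩ | ⟨f', h4, h5⟩
    · refine .inl ⟨_, e' l ((f y - ∑ i ∈ s, l i * f (g i)) / f (g j)) h4 (div_nonneg_of_nonpos
        ?_ h3.le), ?_⟩
      · have := sum_nonneg fun i hi => mul_nonneg (h4 i) (h1 i hi)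
        linarith
      · simp only [hπ, smul_sub, sum_sub_distrib, smul_smul, ← mul_div_assoc, ← sum_smul,
          ← sum_div] at h5
        rw [e, sub_div, sub_smul]
        exact (eq_add_of_sub_eq h5).trans (by abel)
    · refine .inr ⟨f' ∘ₗ π, ?_, h5⟩
      rw [forall_mem_insert]
      exact ⟨by simp [hπ, h3.ne], h4⟩

lemma extreme [FiniteDimensional ℚ V] (s : Finset ι) (g : ι → V)
    (hs : ∀ f : Dual ℚ V, (∀ i ∈ s, f (g i) = 0) → f = 0) (y : V) (f : Dual ℚ V) :
    (∀ i ∈ s, 0 ≤ f (g i)) → f y < 0 → ∃ f : Dual ℚ V, (∀ i ∈ s, 0 ≤ f (g i)) ∧ f y < 0 ∧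
      finrank ℚ V ≤ finrank ℚ (Submodule.span ℚ (g '' {i | i ∈ s ∧ f (g i) = 0})) + 1 := by
  classical
  induction hn : #{i ∈ s | f (g i) ≠ 0} using Nat.strong_induction_on generalizing f with
  | _ n ih =>
  intro h1 h2
  by_contra h3
  have h4 : ∀ i ∈ s, f (g i) = 0 → g i ∈ Submodule.span ℚ (g '' {i | i ∈ s ∧ f (g i) = 0}) :=
    fun i hi h => Submodule.subset_span ⟨i, ⟨hi, h⟩, rfl⟩
  have h5 : ¬ finrank ℚ V ≤ finrank ℚ (Submodule.span ℚ (g '' {i | i ∈ s ∧ f (g i) = 0})) + 1 :=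
    fun h => h3 ⟨f, h1, h2, h⟩
  generalize Submodule.span ℚ (g '' {i | i ∈ s ∧ f (g i) = 0}) = W at h4 h5
  obtain ⟨φ, h6, h7⟩ := (W ⊔ Submodule.span ℚ {y}).exists_le_ker_of_lt_top (lt_top_iff_ne_top.2
    fun h => h5 (by
      rw [← finrank_top, ← h]
      refine (Submodule.finrank_add_le_finrank_add_finrank _ _).trans ?_
      simpa using finrank_span_le_card (R := ℚ) ({y} : Set V)))
  wlog h8 : ∃ i ∈ s, φ (g i) < 0 generalizing φ
  · refine this (-φ) (by simpa) (by rwa [LinearMap.ker_neg]) (by_contra fun h => h6 (hs φ fun i hi => ?_))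
    exact le_antisymm (not_lt.1 fun h' => h ⟨i, hi, by simpa⟩) (not_lt.1 fun h' => h8 ⟨i, hi, h'⟩)
  obtain ⟨j, hj, h9⟩ := (s.filter fun i => φ (g i) < 0).exists_min_image
    (fun i => f (g i) / -φ (g i)) (by simpa [Finset.Nonempty] using h8)
  simp only [mem_filter, and_imp] at hj h9
  have h10 : ∀ i ∈ s, f (g i) = 0 → φ (g i) = 0 := fun i hi h =>
    h7 (Submodule.mem_sup_left (h4 i hi h))
  have h11 : φ y = 0 := h7 (Submodule.mem_sup_right (Submodule.mem_span_singleton_self y))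
  have h12 := div_nonneg (h1 j hj.1) (neg_pos.2 hj.2).le
  refine h3 (ih _ ?_ (f + (f (g j) / -φ (g j)) • φ) rfl (fun i hi => ?_) (by simpa [h11]))
  · refine hn ▸ card_lt_card ⟨fun i hi => ?_, fun h => ?_⟩
    · rw [mem_filter] at *
      exact ⟨hi.1, fun h => hi.2 (by simp [h, h10 i hi.1 h])⟩
    · refine (mem_filter.1 (h (mem_filter.2 ⟨hj.1, fun h => hj.2.ne (h10 j hj.1 h)⟩))).2 ?_
      have := hj.2.ne
      simp only [LinearMap.add_apply, LinearMap.smul_apply, smul_eq_mul]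
      field_simp
      ring
  · simp only [LinearMap.add_apply, LinearMap.smul_apply, smul_eq_mul]
    rcases lt_or_ge (φ (g i)) 0 with h | h
    · have := (le_div_iff₀ (neg_pos.2 h)).1 (h9 i hi h)
      linarith
    · exact add_nonneg (h1 i hi) (mul_nonneg h12 h)

lemma basis_of [FiniteDimensional ℚ V] (g : ι → V) (T : Set ι) : ∃ (m : ℕ) (a : Fin m → ι),
    (∀ x, a x ∈ T) ∧ finrank ℚ (Submodule.span ℚ (g '' T)) = m ∧
      ∀ f : Dual ℚ V, (∀ x, f (g (a x)) = 0) → ∀ v ∈ Submodule.span ℚ (g '' T), f v = 0 := by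
  obtain ⟨κ, a, -, h1, h2⟩ := exists_linearIndependent' ℚ fun i : T => g i
  have := h2.finite
  let b := Finite.equivFin κ
  rw [← Set.image_eq_range] at h1
  refine ⟨_, fun x => a (b.symm x), fun x => (a _).2, ?_, fun f hf v hv => ?_⟩
  · have := Fintype.ofFinite κ
    rw [← h1, finrank_span_eq_card h2, Nat.card_eq_fintype_card]
  · rw [← h1] at hv
    refine (Submodule.span_le (p := LinearMap.ker f)).2 ?_ hv
    rintro _ ⟨x, rfl⟩
    simpa using hf (b x)
end

variable {β : Type} [Fintype β] [DecidableEq β] {ι : Type}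

/-- The functional of an integer vector. -/
def dz (t : β → ℤ) : Dual ℚ (β → ℚ) := ∑ o, (t o : ℚ) • LinearMap.proj o

omit [DecidableEq β] in
lemma dz_apply (t : β → ℤ) (v : β → ℚ) : dz t v = ∑ o, t o * v o := by simp [dz]

lemma dz_single (t : β → ℤ) (o : β) : dz t (Pi.single o 1) = t o := by
  simp [dz_apply, Pi.single_apply]

lemma facet {r D : ℕ} (hr : Fintype.card β = r + 1) (h0 : 0 < r) (hD : 1 ≤ D) (s : Finset ι)
    (g : ι → β → ℕ) (hg : ∀ i ∈ s, ∀ o, g i o ≤ D)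
    (hs : ∀ f : Dual ℚ (β → ℚ), (∀ i ∈ s, f (fun o => g i o) = 0) → f = 0) (y : β → ℚ) :
    (∃ l : ι → ℚ, (∀ i, 0 ≤ l i) ∧ y = ∑ i ∈ s, l i • fun o => (g i o : ℚ)) ∨
      ∃ t : β → ℤ, (∀ o, |t o| ≤ ((r + 1) * D) ^ r) ∧ (∀ i ∈ s, 0 ≤ dz t fun o => g i o) ∧
        dz t y < 0 := by
  refine (farkas s _ y).imp_right fun ⟨f, h1, h2⟩ => ?_
  obtain ⟨f, h1, h2, h3⟩ := extreme s _ hs y f h1 h2
  obtain ⟨m, a, h4, h5, h6⟩ := basis_of (fun i o => (g i o : ℚ))
    {i | i ∈ s ∧ f (fun o => g i o) = 0}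
  have h7 := h6 f fun x => (h4 x).2
  generalize Submodule.span ℚ ((fun i o => (g i o : ℚ)) '' {i | i ∈ s ∧ f (fun o => g i o) = 0}) =
    W at h3 h5 h6 h7
  have h8 := Submodule.finrank_sup_span_singleton (p := W) fun h => h2.ne (h7 y h)
  have h9 := Submodule.finrank_le (W ⊔ Submodule.span ℚ {y})
  have h10 : finrank ℚ (β → ℚ) = r + 1 := by simp [hr]
  obtain rfl : m = r := by omega
  have h11 : W ⊔ Submodule.span ℚ {y} = ⊤ := Submodule.eq_top_of_finrank_eq (by omega)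
  let A : Matrix (Fin m) β ℤ := Matrix.of fun x o => g (a x) o
  let _ := Matrix.seminormedAddCommGroup (m := Fin m) (n := β) (α := ℤ)
  obtain ⟨t, t1, t2, t3⟩ := Int.Matrix.exists_ne_zero_int_vec_norm_le A (by simp [hr]) (by simpa)
  have t4 : ∀ o, |t o| ≤ ((m + 1) * D) ^ m := fun o => by
    have : ‖A‖ ≤ D := (Matrix.norm_le_iff (by simp)).2 fun x o => by
      simpa [A] using hg _ (h4 x).1 o
    have h12 := (norm_le_pi_norm t o).trans t3
    simp only [hr, Fintype.card_fin, Nat.cast_add, Nat.cast_one, add_sub_cancel_left, div_one,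
      Real.rpow_natCast, Int.norm_eq_abs] at h12
    have h13 : ((m + 1) * max 1 ‖A‖ : ℝ) ^ m ≤ ((m + 1) * D) ^ m := by
      gcongr
      exact max_le (by exact_mod_cast hD) this
    exact_mod_cast h12.trans h13
  have t5 : ∀ v, dz t y * f v = f y * dz t v := fun v => by
    have : W ⊔ Submodule.span ℚ {y} ≤ LinearMap.ker (dz t y • f - f y • dz t) := by
      refine sup_le (fun w hw => ?_) (by simp [mul_comm])
      have := h6 (dz t) (fun x => by
        have := congrFun t2 x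
        simp only [A, Matrix.mulVec, dotProduct, Matrix.of_apply, Pi.zero_apply] at this
        rw [dz_apply]
        simp only [mul_comm (t _ : ℚ)]
        exact_mod_cast this) w hw
      simp [h7 w hw, this]
    simpa [sub_eq_zero] using this (h11 ▸ Submodule.mem_top : v ∈ _)
  have t6 : dz t y ≠ 0 := fun h => t1 (funext fun o => by
    simpa [h, h2.ne, dz_single] using t5 (Pi.single o 1))
  rcases lt_or_gt_of_ne t6 with h | h
  · exact ⟨t, t4, fun i hi => by nlinarith [t5 fun o => g i o, h1 i hi], h⟩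
  · have e : ∀ v, dz (-t) v = -dz t v := fun v => by simp [dz_apply]
    exact ⟨-t, by simpa using t4, fun i hi => by
      rw [e]; nlinarith [t5 fun o => g i o, h1 i hi], by rw [e]; linarith⟩

end Pool.Agent.H.MP_a8bb4d_al
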