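import Pool.Agent.H.MP_a8bb4d_al.C

set_option autoImplicit false

namespace Pool.Agent.H.MP_a8bb4d_al

open Pool.Agent.PdOne Pool.Agent.PdFun Pool.Agent.PdSym Pool.Agent.Dep Module Finset
  RingTheory.Sequence MvPolynomial

lemma len_le_dim {S : Type} [CommRing S] [IsNoetherianRing S] : ∀ (rs : List S) (M : Type)
    [AddCommGroup M] [Module S M] [Module.Finite S M], IsRegular M rs →
      (rs.length : WithBot ℕ∞) ≤ Module.supportDim S M
  | [], M, _, _, _, h => by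
    have : Nontrivial M := h.nontrivial
    obtain ⟨d, hd⟩ := WithBot.ne_bot_iff_exists.1 (Module.supportDim_ne_bot_of_nontrivial S M)
    rw [← hd]
    exact WithBot.coe_le_coe.2 zero_le
  | r :: rs, M, _, _, _, h => by
    rw [isRegular_cons_iff] at h
    refine le_trans ?_ (Module.supportDim_quotSMulTop_succ_le_of_notMem_minimalPrimes
      fun _ => h.1.notMem_of_mem_minimalPrimes)
    rw [List.length_cons, Nat.cast_add, Nat.cast_one]
    exact add_le_add_left (len_le_dim rs _ h.2) _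

variable {r : ℕ} {k : Type} [Field k]

lemma max_ne : Ideal.span (Set.range (X : Fin r → MvPolynomial (Fin r) k)) ≠ ⊤ := by
  rw [← Set.image_univ, Ne, Ideal.eq_top_iff_one, mem_ideal_span_X_image]
  intro h
  simpa using h 0 (by simp)

lemma MI_le {E : Set (Fin r →₀ ℕ)} (h0 : 0 ∉ E) : MI k E ≤ Ideal.span (Set.range X) :=
  Ideal.span_le.2 <| by
    rintro _ ⟨x, hx, rfl⟩
    obtain ⟨v, hv⟩ := Finsupp.ne_iff.1 (show x ≠ 0 from fun e => h0 (e ▸ hx))
    exact Ideal.mem_of_dvd _ (X_dvd_monomial.2 (.inr hv)) (Ideal.subset_span ⟨v, rfl⟩)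

lemma not_dm_top {E : Set (Fin r →₀ ℕ)} (h0 : 0 ∉ E) {a : Fin r →₀ ℕ} (ha : a ∈ E) :
    ¬ DM k E r := fun h => by
  classical
  obtain ⟨rs, h3, -, h2⟩ := ModuleCat.exists_isRegular_of_exists_subsingleton_ext
    (Ideal.span (Set.range X)) r (ModuleCat.of _ (MvPolynomial (Fin r) k ⧸ MI k E))
    (lt_top_iff_ne_top.2 fun h => max_ne (k := k) (r := r) (by
      have h3 := congrArg (Submodule.comap (MI k E).mkQ) h
      rw [Submodule.comap_smul_top_of_surjective _ _ (Submodule.mkQ_surjective _),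
        Submodule.ker_mkQ, smul_eq_mul, Ideal.mul_top, Submodule.comap_top] at h3
      rwa [sup_eq_left.2 (MI_le h0)] at h3)) _
    (by rw [Module.support_eq_zeroLocus, Ideal.annihilator_quotient]) h
  have h4 := len_le_dim rs _ h2
  rw [Module.supportDim_quotient_eq_ringKrullDim] at h4
  have h5 := ringKrullDim_succ_le_of_surjective (Ideal.Quotient.mk (MI k E))
    Ideal.Quotient.mk_surjective (mem_nonZeroDivisors_of_ne_zero (by simp : monomial a (1 : k) ≠ 0))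
    (Ideal.Quotient.eq_zero_iff_mem.2 (mono_mem_MI ha))
  rw [MvPolynomial.ringKrullDim_of_isNoetherianRing, ringKrullDim_eq_zero_of_field] at h5
  have : rs.length + 1 ≤ r := by
    have := (add_le_add_left h4 1).trans h5
    simp only [Nat.card_eq_fintype_card, Fintype.card_fin, zero_add] at this
    exact_mod_cast this
  omega

/-- The homogenised lattice point. -/
def pt (a : Fin r →₀ ℕ) (n : ℕ) : Option (Fin r) → ℚ := fun o => (o.elim n a : ℕ)

/-- The coordinate directions. -/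
def ee (i : Fin r) : Option (Fin r) → ℚ := Pi.single (some i) 1

/-- Generators of the cone over the Newton polyhedron. -/
def gz : (Fin r →₀ ℕ) ⊕ Fin r → Option (Fin r) → ℕ
  | .inl v => fun o => o.elim 1 v
  | .inr i => Pi.single (some i) 1

lemma gz_inr (i : Fin r) : (fun o => (gz (.inr i) o : ℚ)) = ee i := by
  ext o
  simp [gz, ee, Pi.single_apply]

lemma pt_add (a b : Fin r →₀ ℕ) (n m : ℕ) : pt (a + b) (n + m) = pt a n + pt b m := by
  ext (_ | i) <;> simp [pt]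

lemma pt_smul (c : ℕ) (a : Fin r →₀ ℕ) (n : ℕ) : pt (c • a) (c * n) = (c : ℚ) • pt a n := by
  ext (_ | i) <;> simp [pt]

lemma pt_eq (a : Fin r →₀ ℕ) (n : ℕ) : pt 0 n + ∑ i, (a i : ℚ) • ee i = pt a n := by
  ext (_ | i) <;> simp [pt, ee, Finset.sum_apply, Pi.single_apply]

lemma dz_pt (t : Option (Fin r) → ℤ) (a : Fin r →₀ ℕ) (n : ℕ) :
    dz t (pt a n) = (t none * n + ∑ i, t (some i) * a i : ℤ) := by
  simp [dz_apply, pt]

lemma span_all {f : Dual ℚ (Option (Fin r) → ℚ)} {v : Fin r →₀ ℕ} (h1 : f (pt v 1) = 0)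
    (h2 : ∀ i, f (ee i) = 0) : f = 0 := by
  refine (Pi.basisFun ℚ _).ext fun o => ?_
  rw [Pi.basisFun_apply]
  rcases o with _ | i
  · rw [← pt_eq] at h1
    have : pt (0 : Fin r →₀ ℕ) 1 = Pi.single none 1 := by ext (_ | i) <;> simp [pt]
    simpa [h2, this] using h1
  · exact h2 i

open Classical in
/-- Valid inequalities with bounded integer coefficients. -/
noncomputable def HH (G : Finset (Fin r →₀ ℕ)) (B : ℤ) : Finset (Dual ℚ (Option (Fin r) → ℚ)) :=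
  ((Fintype.piFinset fun _ => Finset.Icc (-B) B).image dz).filter
    fun h => ∀ i ∈ G.disjSum univ, 0 ≤ h fun o => gz i o

variable {G : Finset (Fin r →₀ ℕ)} {B : ℤ}

lemma mem_HH {h : Dual ℚ (Option (Fin r) → ℚ)} : h ∈ HH G B ↔
    (∃ t, (∀ o, |t o| ≤ B) ∧ dz t = h) ∧ ∀ i ∈ G.disjSum univ, 0 ≤ h fun o => gz i o := by
  simp only [HH, mem_filter, mem_image, Fintype.mem_piFinset, mem_Icc, abs_le]

lemma HH_ee : ∀ h ∈ HH G B, ∀ i, 0 ≤ h (ee i) := fun _ hh i =>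
  gz_inr i ▸ (mem_HH.1 hh).2 (.inr i) (by simp)

lemma HH_pt : ∀ h ∈ HH G B, ∀ v ∈ G, 0 ≤ h (pt v 1) := fun _ hh v hv =>
  (mem_HH.1 hh).2 (.inl v) (by simpa)

lemma Cn_nonneg (hB : 1 ≤ B) (o : Option (Fin r)) :
    ∃ h ∈ HH G B, ∀ y, h y = y o := by
  have e : ∀ y, dz (Pi.single o 1) y = y o := fun y => by simp [dz_apply, Pi.single_apply]
  refine ⟨_, mem_HH.2 ⟨⟨_, fun o' => ?_, rfl⟩, fun i _ => by simp [e]⟩, e⟩
  rw [Pi.single_apply]
  split_ifs <;> simp [hB, zero_le_one.trans hB]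

lemma mem_Ex {a : Fin r →₀ ℕ} {n : ℕ} : a ∈ Ex (HH G B) ee (pt 0 n) ↔ Cn (HH G B) (pt a n) := by
  rw [Ex, Set.mem_setOf_eq, pt_eq]

lemma zero_notMem (hB : 1 ≤ B) (hG : 0 ∉ G) {n : ℕ} (hn : 1 ≤ n) :
    0 ∉ Ex (HH G B) ee (pt 0 n) := fun h => by
  have := mem_Ex.1 h (dz fun o => o.elim (-1) fun _ => 1) (mem_HH.2 ⟨⟨_, by
    rintro (_ | i) <;> simpa, rfl⟩, by
      rintro (v | i) hv
      · obtain ⟨i, hi⟩ := Finsupp.ne_iff.1 (show v ≠ 0 from fun e => hG (by simpa [e] using hv))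
        change 0 ≤ dz _ (pt v 1)
        have := single_le_sum (f := fun i => (v i : ℤ)) (fun _ _ => by simp) (mem_univ i)
        rw [dz_pt, Int.cast_nonneg_iff]
        simp only [Finsupp.zero_apply, Option.elim, one_mul] at *
        omega
      · rw [gz_inr, ee, dz_single]; simp⟩)
  rw [dz_pt, Int.cast_nonneg_iff] at this
  simp at this
  omega

variable {D : ℕ} {v₀ : Fin r →₀ ℕ}

lemma cone_of (h0 : 0 < r) (hD : 1 ≤ D) (hv : v₀ ∈ G) (hG : ∀ v ∈ G, ∀ i, v i ≤ D)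
    {y : Option (Fin r) → ℚ} (hy : Cn (HH G (((r + 1) * D) ^ r)) y) :
    ∃ l : _ → ℚ, (∀ i, 0 ≤ l i) ∧ y = ∑ i ∈ G.disjSum univ, l i • fun o => (gz i o : ℚ) := by
  refine (facet (by simp) h0 hD _ gz ?_ (fun f hf => span_all (hf (.inl v₀) (by simpa))
    fun i => gz_inr i ▸ hf (.inr i) (by simp)) y).resolve_right fun ⟨t, h1, h2, h3⟩ =>
      h3.not_ge (hy _ (mem_HH.2 ⟨⟨t, h1, rfl⟩, h2⟩))
  rintro (v | i) hv (_ | j)
  · exact hD
  · exact hG v (by simpa using hv) j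
  · simp [gz]
  · simp only [gz, Pi.single_apply]
    split_ifs <;> omega

theorem depth_Ex (h0 : 0 < r) (hD : 1 ≤ D) (hv : v₀ ∈ G) (hG : ∀ v ∈ G, ∀ i, v i ≤ D)
    (hG0 : 0 ∉ G) : ∃ ε, ∀ n, DM k (Ex (HH G (((r + 1) * D) ^ r)) ee (pt 0 n)) ε ∧
      ((r + 1) * (r * ((r + 1) * D) ^ r) ≤ n →
        ¬ DM k (Ex (HH G (((r + 1) * D) ^ r)) ee (pt 0 n)) (ε + 1)) := by
  classical
  have hc := fun y => cone_of (y := y) h0 hD hv hG
  have hB : 1 ≤ ((r + 1) * D) ^ r := Nat.one_le_pow _ _ (by positivity)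
  have hB' : (1 : ℤ) ≤ ((r + 1) * D) ^ r := by exact_mod_cast hB
  have h0n := fun n => zero_notMem (n := n) hB' hG0
  have hp := Cn_nonneg (G := G) hB'
  have hi : ∀ h ∈ HH G (((r + 1) * D) ^ r), (∀ a n, h (pt a n) ≠ 0 → 1 ≤ |h (pt a n)|) ∧
      ∑ i, h (ee i) ≤ (r * ((r + 1) * D) ^ r : ℕ) := fun h hh => by
    obtain ⟨t, h1, rfl⟩ := (mem_HH.1 hh).1
    refine ⟨fun a n h => ?_, ?_⟩
    · rw [dz_pt] at *
      exact_mod_cast Int.one_le_abs (by exact_mod_cast h)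
    · refine (sum_le_card_nsmul _ _ ((((r + 1) * D) ^ r : ℤ) : ℚ) fun i _ => ?_).trans (by simp)
      rw [ee, dz_single]
      exact_mod_cast (le_abs_self _).trans (h1 _)
  have he := HH_ee (G := G) (B := ((r + 1) * D) ^ r)
  have hg := HH_pt (G := G) (B := ((r + 1) * D) ^ r)
  have hg' := fun h (hh : h ∈ HH G (((r + 1) * D) ^ r)) => (mem_HH.1 hh).2
  generalize ((r + 1) * D) ^ r = B at hi hB
  generalize HH G _ = H at *
  have hr : finrank ℚ (Option (Fin r) → ℚ) = r + 1 := by simp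
  have z0 : L H 0 = ⊥ := eq_bot_iff.2 fun v hv => funext fun o => by
    obtain ⟨h, h1, h2⟩ := hp o
    exact (h2 v).symm.trans (mem_L.1 hv h h1 (by simp))
  obtain ⟨x, x1, x2, x3⟩ := exists_nu he fun i h => by
    have := congrFun ((Submodule.mem_bot ℚ).1 (z0 ▸ h)) (some i)
    rw [ee, Pi.single_eq_same] at this
    exact one_ne_zero this
  have q1 : ∀ h ∈ H, 0 ≤ h (pt v₀ 1 + ∑ i, ee i) := fun h hh => by
    rw [map_add, map_sum]
    exact add_nonneg (hg h hh _ hv) (sum_nonneg fun i _ => he h hh i)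
  have q2 : ∀ H' ⊆ H, L H' (pt v₀ 1 + ∑ i, ee i) = ⊤ := fun H' h' => eq_top_iff.2 fun v _ =>
    mem_L.2 fun h hh h1 => by
      rw [map_add, map_sum, add_eq_zero_iff_of_nonneg (hg h (h' hh) _ hv)
        (sum_nonneg fun i _ => he h (h' hh) i),
        sum_eq_zero_iff_of_nonneg fun i _ => he h (h' hh) i] at h1
      simp [span_all h1.1 fun i => h1.2 i (mem_univ i)]
  have n1 : finrank ℚ (L H x) < r + 1 := hr ▸ Submodule.finrank_lt fun h => x2 ⟨0, h0⟩ (h ▸ trivial)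
  obtain ⟨ε, n2⟩ : ∃ ε, r = ε + finrank ℚ (L H x) := ⟨r - finrank ℚ (L H x), by omega⟩
  refine ⟨ε, fun n => ⟨(dm_Ex he _ _).2 fun c => ?_, fun hn h => ?_⟩⟩
  · have := claimA (k := k) he x3 ε _ q1
    rw [q2 H subset_rfl, finrank_top] at this
    exact this (by omega) _ trivial
  have n3 : 1 ≤ n := le_trans (Nat.mul_pos (by omega) (Nat.mul_pos h0 hB)) hn
  have up := Ex_up he
  by_cases n4 : r ≤ ε + 1
  · refine not_dm_top (h0n n n3) (a := n • v₀) (fun h hh => ?_) (h.mono n4)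
    have := pt_smul n v₀ 1
    rw [mul_one] at this
    rw [pt_eq, this, map_smul]
    exact mul_nonneg (by simp) (hg h hh _ hv)
  obtain ⟨l, l1, l2⟩ := hc x x1
  have l3 : ∀ i ∈ G.disjSum univ, l i ≠ 0 → (fun o => (gz i o : ℚ)) ∈ L H x := fun i hi h1 =>
    mem_L.2 fun h hh h2 => by
      rw [l2, map_sum, sum_eq_zero_iff_of_nonneg fun i hi => by
        rw [map_smul]; exact mul_nonneg (l1 i) (hg' h hh i hi)] at h2
      simpa [h1] using h2 i hi
  have l4 : ∀ i, i ∈ G.disjSum univ ∧ l i ≠ 0 → ∃ v ∈ G, pt v 1 ∈ L H x ∧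
      (fun o => (gz i o : ℚ)) = pt v 1 := by
    rintro (v | i) ⟨h1, h2⟩
    · exact ⟨v, by simpa using h1, l3 _ h1 h2, rfl⟩
    · exact absurd (gz_inr i ▸ l3 _ h1 h2) (x2 i)
  obtain ⟨m, a, a1, a2, a3⟩ := basis_of (fun i o => (gz i o : ℚ))
    {i | i ∈ G.disjSum univ ∧ l i ≠ 0}
  choose v v1 v2 v3 using fun j => l4 _ (a1 j)
  have a4 : ∀ f : Dual ℚ (Option (Fin r) → ℚ), (∀ j, f (pt (v j) 1) = 0) → f x = 0 := fun f hf => by
    refine a3 f (fun j => (v3 j).symm ▸ hf j) x (l2 ▸ Submodule.sum_mem _ fun i hi => ?_)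
    by_cases h : l i = 0
    · simp [h]
    · exact Submodule.smul_mem _ _ (Submodule.subset_span ⟨i, ⟨hi, h⟩, rfl⟩)
  have a5 : m ≤ r + 1 := a2 ▸ hr ▸ Submodule.finrank_le _
  obtain ⟨j₀⟩ : Nonempty (Fin m) := by
    by_contra h1
    rw [not_nonempty_iff] at h1
    have : x = 0 := (forall_dual_apply_eq_zero_iff ℚ x).1 fun f => a4 f h1.elim
    rw [this, z0, finrank_bot] at n2
    omega
  obtain ⟨s, hs⟩ : ∃ s, n = r * B * m + s := Nat.exists_eq_add_of_le (by nlinarith)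
  have c1 : pt ((r * B) • ∑ j, v j + s • v j₀) n =
      ((r * B : ℕ) : ℚ) • ∑ j, pt (v j) 1 + (s : ℚ) • pt (v j₀) 1 := by
    ext (_ | i) <;> simp [pt, hs, Finset.sum_apply]
  let o : Fin r →₀ ℕ := Finsupp.equivFunOnFinite.symm fun _ => 1
  have c2 : DM k (Ex H ee (pt 0 n - ∑ i, ee i)) (ε + 1) := by
    have e : ∀ a : Fin r →₀ ℕ, a + o ∈ Ex H ee (pt 0 n - ∑ i, ee i) ↔ a ∈ Ex H ee (pt 0 n) :=
      fun a => by simp [Ex, o, add_smul, sum_add_distrib, sub_add_eq_add_sub, ← add_assoc]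
    refine dq_mid _ (MI k _) (monomial o 1) (fun c => ?_) h ?_
    · rw [mem_MI (up _), mem_MI (up _)]
      refine ⟨fun h m hm => ?_, fun h m hm => (e m).1 (h _ (supp_mul_mono.2 hm))⟩
      obtain ⟨a, ha, b, hb, rfl⟩ := mem_add.1 (support_mul _ _ hm)
      rw [mem_singleton.1 (support_monomial_subset hb)]
      exact (e a).2 (h a ha)
    · have hle : MI k (Ex H ee (pt 0 n - ∑ i, ee i)) ≤ Ideal.span {monomial o 1} := by
        refine Ideal.span_le.2 ?_
        rintro _ ⟨a, ha, rfl⟩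
        refine Ideal.mem_span_singleton.2 (monomial_dvd_monomial.2 ⟨.inr fun i => ?_, dvd_rfl⟩)
        obtain ⟨h, h1, h2⟩ := hp (some i)
        simpa [h2, o, pt, ee, Finset.sum_apply, Pi.single_apply] using ha h h1
      have h1 : DM k (∅ : Set (Fin r →₀ ℕ)) (ε + 1 + 1) :=
        (dm_ind univ ∅ (fun _ h => h.elim) fun _ _ _ h => h.elim).mono (by simp; omega)
      rw [DM, show MI k (∅ : Set (Fin r →₀ ℕ)) = ⊥ by simp [MI]] at h1
      have := dq_down ⊥ (monomial o 1) (fun c hc => by simpa using hc) h1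
      rwa [bot_sup_eq, ← sup_eq_right.2 hle] at this
  have c3 := (dm_Ex he _ _).1 c2 ((r * B) • ∑ j, v j + s • v j₀)
  rw [sub_add_eq_add_sub, pt_eq, c1] at c3
  set p := ((r * B : ℕ) : ℚ) • ∑ j, pt (v j) 1 + (s : ℚ) • pt (v j₀) 1 - ∑ i, ee i with hpp
  have p1 : ∀ h : Dual ℚ (Option (Fin r) → ℚ), h p = (r * B : ℕ) * ∑ j, h (pt (v j) 1) +
      s * h (pt (v j₀) 1) - ∑ i, h (ee i) := fun h => by simp [hpp]
  have p2 : ∀ h ∈ H, h p < 0 → h x = 0 := fun h hh h1 => a4 h fun j => by_contra fun h2 => by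
    have h3 := (hi h hh).1 _ _ h2
    rw [abs_of_nonneg (hg h hh _ (v1 j))] at h3
    have h4 := single_le_sum (fun j _ => hg h hh _ (v1 j)) (mem_univ j)
    have h5 := mul_nonneg (Nat.cast_nonneg (α := ℚ) s) (hg h hh _ (v1 j₀))
    have h6 := mul_le_mul_of_nonneg_left (h3.trans h4) (Nat.cast_nonneg (α := ℚ) (r * B))
    have := (hi h hh).2
    rw [p1] at h1
    linarith
  have z1 : L (H.filter fun h => h x = 0) 0 = L H x := by ext; simp [mem_L]
  have := claimB (k := k) (fun h hh => he h (mem_filter.1 hh).1) (Hy_loc x3 x1) (z1 ▸ le_rfl)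
    (z1 ▸ x2) ε _ fun h hh => q1 h (mem_filter.1 hh).1
  rw [q2 _ (filter_subset _ _), finrank_top] at this
  refine this (by omega) p trivial (fun h hh => ?_) (c3.congr fun b => ?_)
  · rw [mem_filter] at hh
    have h1 := fun j => mem_L.1 (v2 j) h hh.1 hh.2
    rcases (sum_nonneg fun i (_ : i ∈ univ) => he h hh.1 i).lt_or_eq with h2 | h2
    · exact .inl (by simpa [p1, h1] using h2)
    · rw [eq_comm, sum_eq_zero_iff_of_nonneg fun i _ => he h hh.1 i] at h2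
      exact .inr (by simp [span_all (h1 j₀) fun i => h2 i (mem_univ i)])
  · exact ⟨fun h1 h hh => h1 h (mem_filter.1 hh).1, fun h1 h hh h2 =>
      h1 h (mem_filter.2 ⟨hh, p2 h hh h2⟩) h2⟩

lemma pow_mem (h0 : 0 < r) (hD : 1 ≤ D) (hv : v₀ ∈ G) (hG : ∀ v ∈ G, ∀ i, v i ≤ D)
    {I : Ideal (MvPolynomial (Fin r) k)} (hI : ∀ v ∈ G, monomial v (1 : k) ∈ I) {a : Fin r →₀ ℕ}
    {n : ℕ} (ha : a ∈ Ex (HH G (((r + 1) * D) ^ r)) ee (pt 0 n)) :
    ∃ j, 1 ≤ j ∧ monomial a (1 : k) ^ j ∈ (I ^ n) ^ j := by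
  obtain ⟨l, h1, h2⟩ := cone_of h0 hD hv hG (mem_Ex.1 ha)
  have e : ∀ j m s t, monomial m (1 : k) ∈ I ^ s → t = j * s → monomial (j • m) (1 : k) ∈ I ^ t :=
    fun j m s t h ht => by
      have := Ideal.pow_mem_pow h j
      rwa [monomial_pow, one_pow, ← pow_mul, mul_comm, ← ht] at this
  obtain ⟨j, h3, m, s, h4, h5⟩ : ∃ j : ℕ, 1 ≤ j ∧ ∃ m s, (j : ℚ) • pt a n = pt m s ∧
      monomial m (1 : k) ∈ I ^ s := by
    rw [h2]
    refine sum_induction _ (fun y => ∃ j : ℕ, 1 ≤ j ∧ ∃ m s, (j : ℚ) • y = pt m s ∧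
      monomial m (1 : k) ∈ I ^ s) ?_ ⟨1, le_rfl, 0, 0, by ext (_ | i) <;> simp [pt], by simp⟩
        fun i hi => ?_
    · rintro y y' ⟨j, h3, m, s, h4, h5⟩ ⟨j', h3', m', s', h4', h5'⟩
      refine ⟨j * j', Nat.mul_pos h3 h3', j' • m + j • m', j' * s + j * s', ?_, ?_⟩
      · rw [pt_add, pt_smul, pt_smul, ← h4, ← h4', smul_smul, smul_smul, smul_add]
        push_cast
        rw [mul_comm (j' : ℚ)]
      · rw [pow_add, ← mul_one (1 : k), ← monomial_mul]
        exact Ideal.mul_mem_mul (e _ _ _ _ h5 rfl) (e _ _ _ _ h5' rfl)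
    · obtain ⟨m, s, h3, h4⟩ : ∃ m s, (fun o => (gz i o : ℚ)) = pt m s ∧
          monomial m (1 : k) ∈ I ^ s := by
        rcases i with v | i
        · exact ⟨v, 1, rfl, by simpa using hI v (by simpa using hi)⟩
        · exact ⟨Finsupp.single i 1, 0, by
            ext (_ | j) <;> simp [gz, pt, Pi.single_apply, Finsupp.single_apply, eq_comm], by simp⟩
      obtain ⟨c, hc⟩ := Int.eq_ofNat_of_zero_le (Rat.num_nonneg.2 (h1 i))
      refine ⟨(l i).den, (l i).den_pos, c • m, c * s, ?_, e _ _ _ _ h4 rfl⟩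
      rw [pt_smul, h3, smul_smul, Rat.den_mul_eq_num, hc, Int.cast_natCast]
  rw [← pt_smul] at h4
  have h6 : j * n = s := Nat.cast_injective (R := ℚ) (congrFun h4 none)
  have h7 : j • a = m := Finsupp.ext fun i => Nat.cast_injective (R := ℚ) (congrFun h4 (some i))
  exact ⟨j, h3, by rwa [monomial_pow, one_pow, ← pow_mul, mul_comm, h6, h7]⟩

/-- The weight grading as a polynomial variable. -/
noncomputable def wt (w : Fin r → ℕ) :
    MvPolynomial (Fin r) k →ₐ[k] Polynomial (MvPolynomial (Fin r) k) :=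
  aeval fun i => Polynomial.C (X i) * Polynomial.X ^ w i

lemma wt_mono (w : Fin r → ℕ) (a : Fin r →₀ ℕ) (c : k) :
    wt w (monomial a c) = Polynomial.C (monomial a c) * Polynomial.X ^ ∑ i, w i * a i := by
  simp only [wt, monomial_eq, Finsupp.prod_fintype _ _ fun _ => pow_zero _, map_mul, map_prod,
    map_pow, aeval_X, aeval_C, mul_pow, prod_mul_distrib, ← pow_mul, prod_pow_eq_pow_sum, mul_assoc]
  rfl

lemma wt_coeff (w : Fin r → ℕ) (a : Fin r →₀ ℕ) (f : MvPolynomial (Fin r) k) :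
    coeff a ((wt w f).coeff (∑ i, w i * a i)) = coeff a f := by
  induction f using MvPolynomial.induction_on' with
  | add f g h h' => simp [h, h']
  | monomial b c =>
    rw [wt_mono, Polynomial.coeff_C_mul_X_pow]
    split_ifs with h
    · rfl
    · rw [coeff_monomial, if_neg fun e => h (by rw [e]), coeff_zero]

lemma X_pow_dvd {A : Type} [CommRing A] [IsDomain A] {g : Polynomial A} {b j : ℕ}
    {a : ℕ → Polynomial A} (h1 : ∀ i ∈ Icc 1 j, Polynomial.X ^ (b * i) ∣ a i)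
    (h2 : g ^ j + ∑ i ∈ Icc 1 j, a i * g ^ (j - i) = 0) :
    ∀ m ≤ b, Polynomial.X ^ m ∣ g := by
  intro m
  induction m with
  | zero => simp
  | succ m ih =>
    intro hm
    obtain ⟨g, rfl⟩ := ih (by omega)
    rw [pow_succ]
    refine mul_dvd_mul_left _ (Polynomial.prime_X.dvd_of_dvd_pow (n := j) ?_)
    rw [← mul_dvd_mul_iff_left (pow_ne_zero (m * j) Polynomial.X_ne_zero), ← pow_succ, pow_mul,
      ← mul_pow, eq_neg_of_add_eq_zero_left h2, dvd_neg]
    refine dvd_sum fun i hi => ?_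
    rw [mem_Icc] at hi
    obtain ⟨d, rfl⟩ := Nat.exists_eq_add_of_le hi.2
    rw [add_tsub_cancel_left, mul_pow, ← pow_mul, ← mul_assoc]
    refine (Dvd.dvd.trans ?_ (mul_dvd_mul_right (h1 i (mem_Icc.2 hi)) _)).mul_right _
    rw [← pow_add]
    exact pow_dvd_pow _ (by nlinarith [hi.1])

lemma supp_mem {I : Ideal (MvPolynomial (Fin r) k)} {s : Set (Fin r →₀ ℕ)} (hI : I = MI k s)
    (hs : ∀ a ∈ s, ∃ v ∈ G, v ≤ a) {n j : ℕ} {f : MvPolynomial (Fin r) k}
    {a : ℕ → MvPolynomial (Fin r) k} (h1 : ∀ i ∈ Icc 1 j, a i ∈ (I ^ n) ^ i)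
    (h2 : f ^ j + ∑ i ∈ Icc 1 j, a i * f ^ (j - i) = 0) :
    f ∈ MI k (Ex (HH G B) ee (pt 0 n)) := by
  refine (mem_MI (Ex_up HH_ee _)).2 fun c hc => mem_Ex.2 fun h hh => ?_
  obtain ⟨t, -, rfl⟩ := (mem_HH.1 hh).1
  have h3 : ∀ i, ∃ w : ℕ, t (some i) = w := fun i => Int.eq_ofNat_of_zero_le (by
    simpa [ee, dz_single] using HH_ee _ hh i)
  choose w hw using h3
  have h4 : I ≤ (Ideal.span {Polynomial.X ^ (-t none).toNat}).comap (wt (k := k) w) := by
    rw [hI]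
    refine Ideal.span_le.2 ?_
    rintro _ ⟨b, hb, rfl⟩
    obtain ⟨v, h4, h5⟩ := hs b hb
    have h6 := HH_pt _ hh v h4
    have h7 : ∑ i, w i * v i ≤ ∑ i, w i * b i :=
      sum_le_sum fun i _ => Nat.mul_le_mul_left _ (h5 i)
    rw [dz_pt, Int.cast_nonneg_iff] at h6
    simp only [hw, ← Nat.cast_mul, ← Nat.cast_sum] at h6
    refine Ideal.mem_span_singleton.2 ?_
    rw [wt_mono]
    exact (pow_dvd_pow _ (by omega)).mul_left _
  have h5 := X_pow_dvd (g := wt w f) (b := (-t none).toNat * n) (j := j) (a := fun i => wt w (a i))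
    (fun i hi => by
      have := Ideal.le_comap_pow _ _ (Ideal.pow_right_mono h4 _ (pow_mul I n i ▸ h1 i hi))
      rwa [Ideal.span_singleton_pow, Ideal.mem_comap, Ideal.mem_span_singleton, ← pow_mul,
        ← mul_assoc] at this) (by simpa using congrArg (wt w) h2) _ le_rfl
  have h6 : (-t none).toNat * n ≤ ∑ i, w i * c i := not_lt.1 fun h => mem_support_iff.1 hc (by
    rw [← wt_coeff w, Polynomial.X_pow_dvd_iff.1 h5 _ h, coeff_zero])
  rw [dz_pt, Int.cast_nonneg_iff]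
  simp only [hw, ← Nat.cast_mul, ← Nat.cast_sum]
  have := Int.self_le_toNat (-t none)
  zify at h6
  simp only [← Nat.cast_mul, ← Nat.cast_sum] at h6
  nlinarith [Nat.cast_nonneg (α := ℤ) n, Nat.cast_mul (α := ℤ) (-t none).toNat n]

end Pool.Agent.H.MP_a8bb4d_al
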